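import Mathlib

/-!
A closed subset of the plane that is not covered by countably many horizontal and vertical lines
is not covered by fewer than continuum many such lines.
-/

set_option autoImplicit false

open Set Cardinal Topology Filter
open scoped ENNReal

namespace Pool.Agent.MP_e5a18e_gt.H61

/-- covered by countably many horizontal and vertical lines -/
def Small (F : Set (ℝ × ℝ)) : Prop :=
  ∃ T : Set ℝ, T.Countable ∧ ∀ p ∈ F, p.1 ∈ T ∨ p.2 ∈ T

theorem Small.mono {F G : Set (ℝ × ℝ)} (h : F ⊆ G) (hG : Small G) : Small F := by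
  obtain ⟨T, hT, h'⟩ := hG
  exact ⟨T, hT, fun p hp => h' p (h hp)⟩

theorem small_sUnion (S : Set (Set (ℝ × ℝ))) (hS : S.Countable) (h : ∀ s ∈ S, Small s) :
    Small (⋃₀ S) := by
  choose! T hT h' using h
  refine ⟨⋃ s ∈ S, T s, hS.biUnion hT, ?_⟩
  rintro p ⟨s, hs, hp⟩
  rcases h' s hs p hp with h | h
  · exact Or.inl (mem_biUnion hs h)
  · exact Or.inr (mem_biUnion hs h)

theorem Small.union {F G : Set (ℝ × ℝ)} (hF : Small F) (hG : Small G) : Small (F ∪ G) := by
  obtain ⟨T, hT, h⟩ := hF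
  obtain ⟨T', hT', h'⟩ := hG
  refine ⟨T ∪ T', hT.union hT', ?_⟩
  rintro p (hp | hp)
  · rcases h p hp with h | h
    · exact Or.inl (Or.inl h)
    · exact Or.inr (Or.inl h)
  · rcases h' p hp with h | h
    · exact Or.inl (Or.inr h)
    · exact Or.inr (Or.inr h)

theorem small_of_local (F : Set (ℝ × ℝ)) (h : ∀ p ∈ F, ∃ t ∈ 𝓝[F] p, Small t) : Small F :=
  (HereditarilyLindelofSpace.isLindelof F).induction_on (p := Small)
    (fun _ _ hst ht => ht.mono hst) small_sUnion h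

theorem splitting {E : Set (ℝ × ℝ)} (hE : IsClosed E ∧ ¬ Small E) {ε : ℝ≥0∞} (hε : 0 < ε) :
    ∃ E₀ E₁ : Set (ℝ × ℝ), ((IsClosed E₀ ∧ ¬ Small E₀) ∧ E₀ ⊆ E ∧ Metric.ediam E₀ ≤ ε) ∧
      ((IsClosed E₁ ∧ ¬ Small E₁) ∧ E₁ ⊆ E ∧ Metric.ediam E₁ ≤ ε) ∧
      ∀ p ∈ E₀, ∀ q ∈ E₁, p.1 ≠ q.1 ∧ p.2 ≠ q.2 := by
  set K : Set (ℝ × ℝ) := {p ∈ E | ∀ r > 0, ¬ Small (E ∩ Metric.closedBall p r)} with hK
  have hEK : Small (E \ K) := by
    apply small_of_local
    rintro p ⟨hp, hpK⟩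
    simp only [hK, mem_ofPred_eq, not_and, not_forall, not_not] at hpK
    obtain ⟨r, hr, hs⟩ := hpK hp
    refine ⟨(E \ K) ∩ Metric.closedBall p r,
      inter_mem_nhdsWithin _ (Metric.closedBall_mem_nhds p hr), hs.mono ?_⟩
    exact inter_subset_inter_left _ sdiff_subset
  have hKs : ¬ Small K := by
    intro h
    apply hE.2
    refine (hEK.union h).mono ?_
    intro p hp
    by_cases hpK : p ∈ K
    · exact Or.inr hpK
    · exact Or.inl ⟨hp, hpK⟩
  obtain ⟨p, hp⟩ : K.Nonempty := by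
    rw [nonempty_iff_ne_empty]
    intro h
    exact hKs ⟨∅, countable_empty, by simp [h]⟩
  obtain ⟨q, hq, hq1, hq2⟩ : ∃ q ∈ K, q.1 ≠ p.1 ∧ q.2 ≠ p.2 := by
    by_contra hcon
    push Not at hcon
    apply hKs
    refine ⟨{p.1, p.2}, (Set.toFinite _).countable, fun q hq => ?_⟩
    by_cases h : q.1 = p.1
    · exact Or.inl (by simp [h])
    · exact Or.inr (by simp [hcon q hq h])
  obtain ⟨δ, hδ0, hδ⟩ : ∃ δ : ℝ, 0 < δ ∧ ENNReal.ofReal δ ≤ ε := by
    obtain ⟨r, hr0, hr⟩ := ENNReal.lt_iff_exists_real_btwn.1 hε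
    exact ⟨r, by simpa using hr.1, hr.2.le⟩
  have h1 : 0 < |q.1 - p.1| := abs_pos.2 (sub_ne_zero.2 hq1)
  have h2 : 0 < |q.2 - p.2| := abs_pos.2 (sub_ne_zero.2 hq2)
  set r : ℝ := min (δ / 2) (min (|q.1 - p.1| / 3) (|q.2 - p.2| / 3)) with hr
  have hr0 : 0 < r := by positivity
  have hr1 : r ≤ δ / 2 := min_le_left _ _
  have hr2 : r ≤ |q.1 - p.1| / 3 := (min_le_right _ _).trans (min_le_left _ _)
  have hr3 : r ≤ |q.2 - p.2| / 3 := (min_le_right _ _).trans (min_le_right _ _)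
  have hd : ∀ x : ℝ × ℝ, Metric.ediam (E ∩ Metric.closedBall x r) ≤ ε := by
    intro x
    refine le_trans (Metric.ediam_le_of_forall_dist_le (C := δ) ?_) hδ
    rintro y ⟨-, hy⟩ z ⟨-, hz⟩
    have := dist_triangle_right y z x
    rw [Metric.mem_closedBall] at hy hz
    linarith
  refine ⟨E ∩ Metric.closedBall p r, E ∩ Metric.closedBall q r,
    ⟨⟨hE.1.inter Metric.isClosed_closedBall, hp.2 r hr0⟩, inter_subset_left, hd p⟩,
    ⟨⟨hE.1.inter Metric.isClosed_closedBall, hq.2 r hr0⟩, inter_subset_left, hd q⟩, ?_⟩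
  rintro x ⟨-, hx⟩ y ⟨-, hy⟩
  rw [Metric.mem_closedBall, Prod.dist_eq, max_le_iff, Real.dist_eq, Real.dist_eq] at hx hy
  constructor
  · intro h
    have := abs_sub_le q.1 x.1 p.1
    rw [abs_sub_comm q.1 x.1] at this
    rw [← h] at hy
    linarith [hx.1, hy.1]
  · intro h
    have := abs_sub_le q.2 x.2 p.2
    rw [abs_sub_comm q.2 x.2] at this
    rw [← h] at hy
    linarith [hx.2, hy.2]

open CantorScheme in
theorem exists_inj {C : Set (ℝ × ℝ)} (hC : IsClosed C ∧ ¬ Small C) :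
    ∃ f : (ℕ → Bool) → ℝ × ℝ, (∀ x, f x ∈ C) ∧ Function.Injective (fun x => (f x).1) ∧
      Function.Injective (fun x => (f x).2) := by
  obtain ⟨u, -, upos', hu⟩ := exists_seq_strictAnti_tendsto' (zero_lt_one' ℝ≥0∞)
  have upos := fun n => (upos' n).1
  let P := Subtype fun E : Set (ℝ × ℝ) => IsClosed E ∧ ¬ Small E
  choose C0 C1 h0 h1 hdisj using
    fun {C : Set (ℝ × ℝ)} (hC : IsClosed C ∧ ¬ Small C) {ε : ℝ≥0∞} (hε : 0 < ε) =>
    splitting hC hε
  let DP : List Bool → P := fun l => by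
    induction l with
    | nil => exact ⟨C, hC⟩
    | cons a l ih =>
      cases a
      · exact ⟨C0 ih.property (upos (l.length + 1)), (h0 _ _).1⟩
      · exact ⟨C1 ih.property (upos (l.length + 1)), (h1 _ _).1⟩
  let D : List Bool → Set (ℝ × ℝ) := fun l => (DP l).val
  have hanti : ClosureAntitone D := by
    refine Antitone.closureAntitone ?_ fun l => (DP l).property.1
    intro l a
    cases a
    · exact (h0 _ _).2.1
    exact (h1 _ _).2.1
  have hdiam : VanishingDiam D := by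
    intro x
    apply tendsto_of_tendsto_of_tendsto_of_le_of_le' tendsto_const_nhds hu
    · simp
    rw [eventually_atTop]
    refine ⟨1, fun m (hm : 1 ≤ m) => ?_⟩
    rw [Nat.one_le_iff_ne_zero] at hm
    rcases Nat.exists_eq_succ_of_ne_zero hm with ⟨n, rfl⟩
    dsimp
    cases x n
    · convert! (h0 _ _).2.2
      rw [PiNat.res_length]
    convert! (h1 _ _).2.2
    rw [PiNat.res_length]
  have hne : ∀ l, (D l).Nonempty := by
    intro l
    rw [nonempty_iff_ne_empty]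
    intro h
    apply (DP l).property.2
    refine ⟨∅, countable_empty, fun p hp => ?_⟩
    have : p ∈ D l := hp
    simp [h] at this
  have hdom : ∀ {x : ℕ → Bool}, x ∈ (inducedMap D).1 := fun {x} => by
    rw [hanti.map_of_vanishingDiam hdiam hne]
    apply mem_univ
  have key : ∀ g : ℝ × ℝ → ℝ,
      (∀ l, ∀ p ∈ D (false :: l), ∀ q ∈ D (true :: l), g p ≠ g q) →
      Function.Injective (fun x => g ((inducedMap D).2 ⟨x, hdom⟩)) := by
    intro g hg x y hxy
    apply PiNat.res_injective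
    ext n : 1
    induction n with
    | zero => simp
    | succ n ih =>
      simp only [PiNat.res_succ, List.cons.injEq]
      refine ⟨?_, ih⟩
      have hx := map_mem (A := D) ⟨x, hdom⟩ (n + 1)
      have hy := map_mem (A := D) ⟨y, hdom⟩ (n + 1)
      simp only [PiNat.res_succ] at hx hy
      rw [← ih] at hy
      cases hxn : x n <;> cases hyn : y n <;> rw [hxn] at hx <;> rw [hyn] at hy
      · exact absurd hxy (hg _ _ hx _ hy)
      · exact absurd hxy.symm (hg _ _ hy _ hx)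
  refine ⟨fun x => (inducedMap D).2 ⟨x, hdom⟩, fun x => map_mem (A := D) ⟨x, hdom⟩ 0, ?_, ?_⟩
  · exact key Prod.fst fun l p hp q hq => (hdisj _ _ p hp q hq).1
  · exact key Prod.snd fun l p hp q hq => (hdisj _ _ p hp q hq).2

theorem exists_avoid {C : Set (ℝ × ℝ)} (hC : IsClosed C ∧ ¬ Small C) (S : Set ℝ)
    (hS : #S < 𝔠) : ∃ p ∈ C, p.1 ∉ S ∧ p.2 ∉ S := by
  obtain ⟨f, hf, h1, h2⟩ := exists_inj hC
  by_contra hcon
  push Not at hcon
  have hu : (univ : Set (ℕ → Bool)) ⊆ (fun x => (f x).1) ⁻¹' S ∪ (fun x => (f x).2) ⁻¹' S := by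
    intro x _
    by_cases h : (f x).1 ∈ S
    · exact Or.inl h
    · exact Or.inr (hcon _ (hf x) h)
  have h3 := (mk_le_mk_of_subset hu).trans (mk_union_le _ _)
  have h4 := add_lt_of_lt aleph0_le_continuum ((mk_preimage_of_injective _ S h1).trans_lt hS)
    ((mk_preimage_of_injective _ S h2).trans_lt hS)
  have h5 := h3.trans_lt h4
  simp at h5

end Pool.Agent.MP_e5a18e_gt.H61
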