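import Pool.Agent.MP_e5a18e_gt.H61.Perfect

/-!
Transfinite construction of the sets A and C of reals.
-/

set_option autoImplicit false

open Set Cardinal Topology Filter

namespace Pool.Agent.MP_e5a18e_gt.H61

theorem greedy {ι γ : Type} (hι : #ι ≤ 𝔠) (supp : γ → Finset ℝ) (P : ι → γ → Prop)
    (h : ∀ (i : ι) (S : Set ℝ), #S < 𝔠 → ∃ x, P i x ∧ ∀ t ∈ supp x, t ∉ S) :
    ∃ f : ι → γ, (∀ i, P i (f i)) ∧ ∀ i j, i ≠ j → ∀ t ∈ supp (f i), t ∉ supp (f j) := by
  obtain ⟨lo, wf, hr⟩ := exists_ord_eq_type_lt ι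
  choose g hg1 hg2 using h
  have hcard : ∀ (i : ι) (s : Iio i → Finset ℝ), #(⋃ j, (s j : Set ℝ)) < 𝔠 := by
    intro i s
    have h1 : #(Iio i) < 𝔠 := (mk_Iio_lt i hr).trans_le hι
    have h2 : #(⋃ j, (s j : Set ℝ)) ≤ #(Iio i) * ℵ₀ := by
      refine mk_iUnion_le_sum_mk.trans ?_
      refine (sum_le_sum _ (fun _ => ℵ₀) fun j => ?_).trans (by simp)
      exact (finset_card_lt_aleph0 (s j)).le
    exact h2.trans_lt (mul_lt_of_lt aleph0_le_continuum h1 aleph0_lt_continuum)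
  let F : ∀ i : ι, (∀ j, j < i → γ) → γ := fun i prev =>
    g i (⋃ j : Iio i, (supp (prev j j.2) : Set ℝ)) (hcard i _)
  let f : ι → γ := (wellFounded_lt (α := ι)).fix F
  have hf : ∀ i, f i = g i (⋃ j : Iio i, (supp (f j) : Set ℝ)) (hcard i _) := fun i =>
    (wellFounded_lt (α := ι)).fix_eq F i
  have hlt : ∀ i j, j < i → ∀ t ∈ supp (f i), t ∉ supp (f j) := by
    intro i j hji t ht htj
    rw [hf i] at ht
    exact hg2 _ _ _ t ht (mem_iUnion.2 ⟨⟨j, hji⟩, htj⟩)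
  refine ⟨f, fun i => by rw [hf i]; exact hg1 _ _ _, fun i j hij t ht htj => ?_⟩
  rcases lt_or_gt_of_ne hij with h | h
  · exact hlt j i h t htj ht
  · exact hlt i j h t ht htj

theorem exists_notMem (S : Set ℝ) (hS : #S < 𝔠) : ∃ t, t ∉ S := by
  by_contra h
  push Not at h
  have : S = Set.univ := eq_univ_of_forall h
  rw [this, mk_univ, mk_real] at hS
  exact lt_irrefl _ hS

theorem abs_pre_lt (S : Set ℝ) (hS : #S < 𝔠) : #{t : ℝ | |t| ∈ S} < 𝔠 := by
  have hsub : {t : ℝ | |t| ∈ S} ⊆ S ∪ (fun t : ℝ => -t) ⁻¹' S := by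
    intro t ht
    rcases abs_cases t with ⟨h, -⟩ | ⟨h, -⟩
    · left; rw [← h]; exact ht
    · right; show -t ∈ S; rw [← h]; exact ht
  refine ((mk_le_mk_of_subset hsub).trans (mk_union_le _ _)).trans_lt ?_
  exact add_lt_of_lt aleph0_le_continuum hS
    ((mk_preimage_of_injective _ S neg_injective).trans_lt hS)

theorem insert_lt (S : Set ℝ) (hS : #S < 𝔠) (a : ℝ) : #(insert a S : Set ℝ) < 𝔠 :=
  mk_insert_le.trans_lt
    (add_lt_of_lt aleph0_le_continuum hS (one_lt_aleph0.trans aleph0_lt_continuum))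

theorem exists_AC : ∃ A C : Set ℝ, (∀ a ∈ A, -a ∉ A) ∧ (∀ a ∈ A, a ∉ C) ∧ (∀ c ∈ C, -c ∈ C) ∧
    ¬ C.Countable ∧ ∀ F : Set (ℝ × ℝ), IsClosed F → (∀ p ∈ F, p.1 ∈ A → p.2 ∉ A) →
      Small (F ∩ {p | p.1 + p.2 ≠ 0}) := by
  classical
  let P : (ℕ → ℝ × ℝ) → ℝ × ℝ × ℝ → Prop := fun u x =>
    ((¬ Small (closure (range u)) ∧ ∀ p ∈ closure (range u), p.1 + p.2 ≠ 0) →
      (x.1, x.2.1) ∈ closure (range u)) ∧
    x.1 ≠ 0 ∧ x.2.1 ≠ 0 ∧ x.1 + x.2.1 ≠ 0 ∧ |x.2.2| ≠ |x.1| ∧ |x.2.2| ≠ |x.2.1|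
  have hι : #(ℕ → ℝ × ℝ) = 𝔠 := by simp [mk_real]
  obtain ⟨f, hP, hd⟩ := greedy hι.le (fun x : ℝ × ℝ × ℝ => {|x.1|, |x.2.1|, |x.2.2|}) P (by
    intro u S hS
    have hS1 := abs_pre_lt _ (insert_lt S hS 0)
    obtain ⟨a, b, hab, ha, hb, hs⟩ : ∃ a b : ℝ,
        ((¬ Small (closure (range u)) ∧ ∀ p ∈ closure (range u), p.1 + p.2 ≠ 0) →
          (a, b) ∈ closure (range u)) ∧ |a| ∉ insert 0 S ∧ |b| ∉ insert 0 S ∧ a + b ≠ 0 := by
      by_cases hbig : ¬ Small (closure (range u)) ∧ ∀ p ∈ closure (range u), p.1 + p.2 ≠ 0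
      · obtain ⟨p, hp, h1, h2⟩ := exists_avoid ⟨isClosed_closure, hbig.1⟩ _ hS1
        exact ⟨p.1, p.2, fun _ => hp, h1, h2, hbig.2 p hp⟩
      · obtain ⟨a, ha⟩ := exists_notMem _ hS1
        refine ⟨a, a, fun h => absurd h hbig, ha, ha, fun h => ha ?_⟩
        have : a = 0 := by linarith
        simp [this]
    obtain ⟨c, hc⟩ := exists_notMem _ (abs_pre_lt _ (insert_lt _ (insert_lt S hS |b|) |a|))
    simp only [mem_ofPred_eq, mem_insert_iff, not_or, abs_eq_zero] at hc ha hb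
    refine ⟨(a, b, c), ⟨hab, ha.1, hb.1, hs, hc.1, hc.2.1⟩, ?_⟩
    intro t ht
    simp only [Finset.mem_insert, Finset.mem_singleton] at ht
    rcases ht with rfl | rfl | rfl
    · exact ha.2
    · exact hb.2
    · exact hc.2.2)
  simp only [Finset.mem_insert, Finset.mem_singleton, forall_eq_or_imp, forall_eq, not_or] at hd
  refine ⟨{t | ∃ u, t = (f u).1 ∨ t = (f u).2.1}, {t | ∃ u, |t| = |(f u).2.2|}, ?_, ?_, ?_, ?_, ?_⟩
  · rintro a ⟨u, hu⟩ ⟨v, hv⟩
    obtain ⟨-, h1, h2, h3, -, -⟩ := hP u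
    by_cases huv : u = v
    · subst huv
      rcases hu with hu | hu <;> rcases hv with hv | hv
      · exact h1 (by linarith)
      · exact h3 (by linarith)
      · exact h3 (by linarith)
      · exact h2 (by linarith)
    · obtain ⟨⟨a1, a2, -⟩, ⟨a3, a4, -⟩, -⟩ := hd u v huv
      rcases hu with hu | hu <;> rcases hv with hv | hv
      · exact a1 (by rw [← hu, ← hv, abs_neg])
      · exact a2 (by rw [← hu, ← hv, abs_neg])
      · exact a3 (by rw [← hu, ← hv, abs_neg])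
      · exact a4 (by rw [← hu, ← hv, abs_neg])
  · rintro a ⟨u, hu⟩ ⟨v, hv⟩
    obtain ⟨-, -, -, -, h4, h5⟩ := hP u
    by_cases huv : u = v
    · subst huv
      rcases hu with hu | hu
      · exact h4 (by rw [← hu, ← hv])
      · exact h5 (by rw [← hu, ← hv])
    · obtain ⟨⟨-, -, a1⟩, ⟨-, -, a2⟩, -⟩ := hd u v huv
      rcases hu with hu | hu
      · exact a1 (by rw [← hu, ← hv])
      · exact a2 (by rw [← hu, ← hv])
  · rintro c ⟨u, hu⟩
    exact ⟨u, by rw [abs_neg, hu]⟩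
  · intro hC
    have hinj : Function.Injective fun u => (f u).2.2 := by
      intro u v huv
      by_contra hne
      exact (hd u v hne).2.2.2.2 (by simp only at huv; rw [huv])
    have h1 : (Set.univ : Set (ℕ → ℝ × ℝ)).Countable := by
      refine (hC.preimage_of_injOn (f := fun u => (f u).2.2) hinj.injOn).mono ?_
      intro u _
      exact ⟨u, rfl⟩
    rw [← le_aleph0_iff_set_countable, mk_univ, hι] at h1
    exact absurd h1 (not_le.2 aleph0_lt_continuum)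
  · intro F hF hA
    have hG : ∀ G : Set (ℝ × ℝ), IsClosed G → G ⊆ F → (∀ p ∈ G, p.1 + p.2 ≠ 0) → Small G := by
      intro G hG hGF hG0
      by_contra hbig
      obtain ⟨t, htG, htc, hGt⟩ :=
        (TopologicalSpace.IsSeparable.of_separableSpace G).exists_countable_dense_subset
      have htne : t.Nonempty := by
        rw [nonempty_iff_ne_empty]
        rintro rfl
        apply hbig
        refine ⟨∅, countable_empty, fun p hp => ?_⟩
        simpa using hGt hp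
      obtain ⟨u, rfl⟩ := htc.exists_eq_range htne
      have hcl : closure (range u) = G := (closure_minimal htG hG).antisymm hGt
      have hmem := (hP u).1 (by rw [hcl]; exact ⟨hbig, hG0⟩)
      rw [hcl] at hmem
      exact hA _ (hGF hmem) ⟨u, Or.inl rfl⟩ ⟨u, Or.inr rfl⟩
    apply small_of_local
    rintro p ⟨hp, hp0⟩
    have hpos : 0 < |p.1 + p.2| := abs_pos.2 hp0
    have hcont : Continuous fun q : ℝ × ℝ => |q.1 + q.2| := by fun_prop
    refine ⟨(F ∩ {p | p.1 + p.2 ≠ 0}) ∩ {q | |p.1 + p.2| / 2 ≤ |q.1 + q.2|},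
      inter_mem_nhdsWithin _ ?_, (hG (F ∩ {q | |p.1 + p.2| / 2 ≤ |q.1 + q.2|})
        (hF.inter (isClosed_le continuous_const hcont)) inter_subset_left ?_).mono ?_⟩
    · have : {q : ℝ × ℝ | |p.1 + p.2| / 2 < |q.1 + q.2|} ∈ 𝓝 p :=
        (isOpen_lt continuous_const hcont).mem_nhds (by simp only [mem_ofPred_eq]; linarith)
      exact mem_of_superset this fun q hq => le_of_lt (α := ℝ) hq
    · rintro q ⟨-, hq⟩ h0
      simp only [mem_ofPred_eq, h0, abs_zero] at hq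
      linarith
    · exact inter_subset_inter_left _ inter_subset_left

end Pool.Agent.MP_e5a18e_gt.H61
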