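import Pool.Agent.MP_e5a18e_gt.H61.Sets

/-!
The space: A ∪ C with the points of C made isolated.
-/

set_option autoImplicit false

open Set Topology Filter

namespace Pool.Agent.MP_e5a18e_gt.H61

theorem lindelof_of_conc {Y M : Type} [TopologicalSpace Y] [TopologicalSpace M]
    [SecondCountableTopology M] (ρ : Y → M) (S R : Set Y) (hSR : S ⊆ R)
    (hS : ∀ y ∈ S, comap ρ (𝓝 (ρ y)) ≤ 𝓝 y)
    (hR : ∀ V : Set M, IsOpen V → (∀ y ∈ S, ρ y ∈ V) →
      ∃ L, IsLindelof L ∧ L ⊆ R ∧ ∀ y ∈ R, ρ y ∉ V → y ∈ L) : IsLindelof R := by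
  apply isLindelof_of_countable_subcover
  intro ι U hU hcov
  have h1 : ∀ y : S, ∃ i, ∃ V : Set M, IsOpen V ∧ ρ y ∈ V ∧ ρ ⁻¹' V ⊆ U i := by
    rintro ⟨y, hy⟩
    obtain ⟨i, hi⟩ := mem_iUnion.1 (hcov (hSR hy))
    obtain ⟨t, ht, htU⟩ := mem_comap.1 (hS y hy ((hU i).mem_nhds hi))
    obtain ⟨V, hVt, hV, hyV⟩ := mem_nhds_iff.1 ht
    exact ⟨i, V, hV, hyV, (preimage_mono hVt).trans htU⟩
  choose i V hV hyV hVU using h1
  obtain ⟨t, htc, ht⟩ := eq_open_union_countable V hV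
  obtain ⟨L, hL, hLR, hRL⟩ := hR (⋃ y, V y) (isOpen_iUnion hV)
    (fun y hy => mem_iUnion.2 ⟨⟨y, hy⟩, hyV _⟩)
  obtain ⟨r, hrc, hr⟩ := hL.elim_countable_subcover U hU (hLR.trans hcov)
  refine ⟨i '' t ∪ r, (htc.image i).union hrc, fun y hy => ?_⟩
  by_cases hyV' : ρ y ∈ ⋃ y, V y
  · rw [← ht] at hyV'
    obtain ⟨z, hz, hyz⟩ := mem_iUnion₂.1 hyV'
    exact mem_iUnion₂.2 ⟨i z, Or.inl ⟨z, hz, rfl⟩, hVU z hyz⟩
  · obtain ⟨j, hj, hyj⟩ := mem_iUnion₂.1 (hr (hRL y hy hyV'))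
    exact mem_iUnion₂.2 ⟨j, Or.inr hj, hyj⟩

theorem paracompact_of {X : Type} [TopologicalSpace X] [RegularSpace X] [Nonempty X] (R : Set X)
    (hRo : IsOpen R) (hL : IsLindelof R) (hiso : ∀ x, x ∉ R → IsOpen ({x} : Set X)) :
    ParacompactSpace X := by
  classical
  refine ⟨fun α s hs hcov => ?_⟩
  have h1 : ∀ x : X, ∃ a, ∃ V : Set X, IsOpen V ∧ x ∈ V ∧ closure V ⊆ s a := by
    intro x
    obtain ⟨a, ha⟩ := mem_iUnion.1 (hcov.symm ▸ mem_univ x : x ∈ ⋃ a, s a)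
    obtain ⟨t, ht, htc, hts⟩ := exists_mem_nhds_isClosed_subset ((hs a).mem_nhds ha)
    exact ⟨a, interior t, isOpen_interior, mem_interior_iff_mem_nhds.2 ht,
      (closure_minimal interior_subset htc).trans hts⟩
  choose a V hV hxV hVs using h1
  obtain ⟨x, hx⟩ := hL.indexed_countable_subcover V hV
    (fun y _ => mem_iUnion.2 ⟨y, hxV y⟩)
  let W : ℕ → Set X := fun n => (R ∩ s (a (x n))) \ ⋃ m ∈ Finset.range n, closure (V (x m))
  have hWo : ∀ n, IsOpen (W n) := fun n =>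
    (hRo.inter (hs _)).sdiff (isClosed_biUnion_finset fun _ _ => isClosed_closure)
  let t : ℕ ⊕ X → Set X := Sum.elim W fun y => if y ∈ R then ∅ else {y}
  refine ⟨ℕ ⊕ X, t, ?_, ?_, ?_, ?_⟩
  · rintro (n | y)
    · exact hWo n
    · by_cases hy : y ∈ R
      · simp [t, hy]
      · simpa [t, hy] using hiso y hy
  · rw [eq_univ_iff_forall]
    intro y
    by_cases hy : y ∈ R
    · have hex : ∃ n, y ∈ s (a (x n)) := by
        obtain ⟨n, hn⟩ := mem_iUnion.1 (hx hy)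
        exact ⟨n, hVs _ (subset_closure hn)⟩
      refine mem_iUnion.2 ⟨Sum.inl (Nat.find hex), ⟨hy, Nat.find_spec hex⟩, ?_⟩
      intro hmem
      obtain ⟨m, hm, hym⟩ := mem_iUnion₂.1 hmem
      exact Nat.find_min hex (Finset.mem_range.1 hm) (hVs _ hym)
    · exact mem_iUnion.2 ⟨Sum.inr y, by simp [t, hy]⟩
  · intro y
    by_cases hy : y ∈ R
    · obtain ⟨m, hm⟩ := mem_iUnion.1 (hx hy)
      refine ⟨R ∩ V (x m), (hRo.inter (hV _)).mem_nhds ⟨hy, hm⟩, ?_⟩
      refine ((Set.finite_Iic m).image Sum.inl).subset ?_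
      rintro (n | z) ⟨w, hw, hwR, hwV⟩
      · refine ⟨n, ?_, rfl⟩
        by_contra hnm
        exact hw.2 (mem_iUnion₂.2 ⟨m, Finset.mem_range.2 (not_le.1 hnm), subset_closure hwV⟩)
      · by_cases hz : z ∈ R
        · simp [t, hz] at hw
        · simp only [t, Sum.elim_inr, hz, if_false, mem_singleton_iff] at hw
          exact absurd (hw ▸ hwR) hz
    · refine ⟨{y}, (hiso y hy).mem_nhds rfl, (Set.finite_singleton (Sum.inr y)).subset ?_⟩
      rintro (n | z) ⟨w, hw, hwy⟩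
      · rw [mem_singleton_iff] at hwy
        exact absurd (hwy ▸ hw.1.1) hy
      · by_cases hz : z ∈ R
        · simp [t, hz] at hw
        · simp only [t, Sum.elim_inr, hz, if_false, mem_singleton_iff] at hw hwy ⊢
          rw [← hw, hwy]
  · rintro (n | y)
    · exact ⟨a (x n), fun w hw => hw.1.2⟩
    · refine ⟨a y, ?_⟩
      by_cases hy : y ∈ R
      · simp [t, hy]
      · simpa [t, hy] using hVs y (subset_closure (hxV y))

theorem main_abstract {Z : Type} [TopologicalSpace Z] [RegularSpace Z] (π : Z → ℝ)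
    (hc : Continuous π) (hinj : Function.Injective π) (A C : Set ℝ)
    (hA : ∀ a ∈ A, -a ∉ A) (hAC : ∀ a ∈ A, a ∉ C) (hC : ∀ c ∈ C, -c ∈ C) (hCu : ¬ C.Countable)
    (hF : ∀ F : Set (ℝ × ℝ), IsClosed F → (∀ p ∈ F, p.1 ∈ A → p.2 ∉ A) →
      Small (F ∩ {p | p.1 + p.2 ≠ 0}))
    (hr : ∀ z, π z ∈ A ∨ π z ∈ C) (hs : ∀ t, t ∈ A ∨ t ∈ C → ∃ z, π z = t)
    (hn : ∀ z, π z ∈ A → comap π (𝓝 (π z)) ≤ 𝓝 z)
    (hi : ∀ z, π z ∈ C → IsOpen ({z} : Set Z)) :
    LindelofSpace Z ∧ ParacompactSpace (Z × Z) ∧ ¬ LindelofSpace (Z × Z) := by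
  have hne : Nonempty Z := by
    obtain ⟨c, hc⟩ : C.Nonempty := by
      rw [nonempty_iff_ne_empty]; rintro rfl; exact hCu countable_empty
    obtain ⟨z, -⟩ := hs c (Or.inr hc)
    exact ⟨z⟩
  have hZ : LindelofSpace Z := by
    rw [← isLindelof_univ_iff]
    refine lindelof_of_conc π {z | π z ∈ A} univ (subset_univ _) hn fun V hV hAV => ?_
    obtain ⟨T, hT, hT'⟩ := hF {p | p.1 = p.2 ∧ p.1 ∉ V}
      ((isClosed_eq continuous_fst continuous_snd).inter
        (hV.isClosed_compl.preimage continuous_fst)) (by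
        rintro p ⟨-, hp⟩ h1 -
        obtain ⟨z, hz⟩ := hs _ (Or.inl h1)
        exact hp (hz ▸ hAV z (by show π z ∈ A; rw [hz]; exact h1)))
    refine ⟨π ⁻¹' insert 0 T, ((hT.insert 0).preimage hinj).isLindelof, subset_univ _,
      fun z _ hz => ?_⟩
    by_cases h0 : π z = 0
    · exact Or.inl h0
    · have := hT' (π z, π z) ⟨⟨rfl, hz⟩, fun h => h0 (by simp only at h; linarith)⟩
      exact Or.inr (this.elim id id)
  set R : Set (Z × Z) := {p | π p.1 + π p.2 ≠ 0} with hR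
  have hRo : IsOpen R := isOpen_ne_fun (by fun_prop) continuous_const
  have hout : ∀ p, p ∉ R → π p.1 ∈ C ∧ π p.2 ∈ C := by
    intro p hp
    simp only [hR, mem_ofPred_eq, not_not] at hp
    have e1 : π p.2 = -π p.1 := by linarith
    have e2 : π p.1 = -π p.2 := by linarith
    have h1 : π p.1 ∈ C := by
      refine (hr p.1).resolve_left fun h => ?_
      rcases hr p.2 with h' | h'
      · exact hA _ h (e1 ▸ h')
      · exact hAC _ h (e2 ▸ hC _ h')
    exact ⟨h1, e1 ▸ hC _ h1⟩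
  have hiso : ∀ p, p ∉ R → IsOpen ({p} : Set (Z × Z)) := by
    rintro ⟨z, w⟩ hp
    rw [← singleton_prod_singleton]
    exact (hi z (hout _ hp).1).prod (hi w (hout _ hp).2)
  have hRc : IsClosed R := by
    rw [← isOpen_compl_iff, isOpen_iff_mem_nhds]
    intro p hp
    exact mem_of_superset ((hiso p hp).mem_nhds rfl) (by simpa using hp)
  have hL : IsLindelof R := by
    refine lindelof_of_conc (Prod.map π π) {p | π p.1 ∈ A ∧ π p.2 ∈ A} R ?_ ?_ fun V hV hAV => ?_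
    · rintro p ⟨h1, h2⟩ h0
      have e1 : π p.2 = -π p.1 := by linarith
      exact hA _ h1 (e1 ▸ h2)
    · rintro ⟨z, w⟩ ⟨h1, h2⟩
      rw [Prod.map_apply, nhds_prod_eq, nhds_prod_eq, comap_prodMap_prod]
      exact prod_mono (hn z h1) (hn w h2)
    · obtain ⟨T, hT, hT'⟩ := hF Vᶜ hV.isClosed_compl (by
        rintro ⟨a, b⟩ hp h1 h2
        obtain ⟨z, rfl⟩ := hs _ (Or.inl h1)
        obtain ⟨w, rfl⟩ := hs _ (Or.inl h2)
        exact hp (hAV (z, w) ⟨h1, h2⟩))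
      refine ⟨(⋃ z ∈ π ⁻¹' T, (range (fun w => (z, w)) ∪ range (fun w => (w, z)))) ∩ R,
        IsLindelof.inter_right ?_ hRc, inter_subset_right, ?_⟩
      · exact (hT.preimage hinj).isLindelof_biUnion fun z _ =>
          (isLindelof_range (by fun_prop)).union (isLindelof_range (by fun_prop))
      · rintro ⟨z, w⟩ hp hpV
        refine ⟨?_, hp⟩
        rcases hT' (π z, π w) ⟨hpV, hp⟩ with h | h
        · exact mem_iUnion₂.2 ⟨z, h, Or.inl ⟨w, rfl⟩⟩
        · exact mem_iUnion₂.2 ⟨w, h, Or.inr ⟨z, rfl⟩⟩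
  refine ⟨hZ, paracompact_of R hRo hL hiso, fun hLL => hCu ?_⟩
  obtain ⟨t, htc, -, ht⟩ := hRo.isClosed_compl.isLindelof.elim_nhds_subcover
    (fun p => {p}) fun p hp => (hiso p hp).mem_nhds rfl
  refine (htc.image fun p => π p.1).mono fun c hc => ?_
  obtain ⟨z, hz⟩ := hs c (Or.inr hc)
  obtain ⟨w, hw⟩ := hs (-c) (Or.inr (hC c hc))
  have : (z, w) ∈ Rᶜ := by simp [hR, hz, hw]
  obtain ⟨p, hp, hp'⟩ := mem_iUnion₂.1 (ht this)
  rw [mem_singleton_iff] at hp'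
  exact ⟨p, hp, by rw [← hp']; exact hz⟩

theorem main : ∃ (X : Type) (_ : TopologicalSpace X), T35Space X ∧ LindelofSpace X ∧
    ParacompactSpace (X × X) ∧ ¬ LindelofSpace (X × X) := by
  classical
  obtain ⟨A, C, hA, hAC, hC, hCu, hF⟩ := exists_AC
  let e : ℝ → ℝ → Bool := fun t c => decide (c ∈ C ∧ t = c)
  let Z : Type := {p : ℝ × (ℝ → Bool) // (p.1 ∈ A ∨ p.1 ∈ C) ∧ p.2 = e p.1}
  let π : Z → ℝ := fun z => z.1.1
  have hinj : Function.Injective π := by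
    rintro ⟨⟨a, f⟩, h1, h2⟩ ⟨⟨b, g⟩, h3, h4⟩ h
    simp only [π] at h h2 h4
    subst h h2 h4
    rfl
  refine ⟨Z, inferInstance, inferInstance, main_abstract π (by fun_prop) hinj A C hA hAC hC hCu hF
    (fun z => z.2.1) (fun t ht => ⟨⟨(t, e t), ht, rfl⟩, rfl⟩) ?_ ?_⟩
  · intro z hz
    rw [nhds_subtype_eq_comap, ← tendsto_iff_comap]
    refine Tendsto.prodMk_nhds (f := comap π (𝓝 (π z))) (mx := π) (my := fun w : Z => w.1.2)
      tendsto_comap ?_
    rw [tendsto_pi_nhds]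
    intro c
    refine tendsto_const_nhds.congr' ?_
    by_cases hc : c ∈ C
    · have hne : π z ≠ c := fun h => hAC _ hz (h ▸ hc)
      filter_upwards [preimage_mem_comap (isOpen_ne.mem_nhds hne)] with w hw
      have hw' : π w ≠ c := hw
      rw [z.2.2, w.2.2]
      simp only [e, π] at hne hw' ⊢
      simp [hne, hw']
    · refine Eventually.of_forall fun w => ?_
      simp only
      rw [z.2.2, w.2.2]
      simp [e, hc]
  · intro z hz
    have : ({z} : Set Z) = (fun w : Z => w.1.2 (π z)) ⁻¹' {true} := by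
      ext w
      simp only [mem_singleton_iff, mem_preimage]
      rw [w.2.2]
      simp only [e, hz, true_and, decide_eq_true_eq]
      exact ⟨fun h => by rw [h], fun h => hinj h⟩
    rw [this]
    exact (isOpen_discrete _).preimage (by fun_prop)

end Pool.Agent.MP_e5a18e_gt.H61
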